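import Pool.Agent.Work.MP_413ea6_mp.Full

open Filter Topology Pool.Agent.Work.MP_413ea6_mp

namespace Pool.Agent.Results.MP_413ea6_mp.ArcticCurve

theorem result (a b c : ℝ) (ha : 0 < a) (hb : 0 < b) (hc : 0 < c) :
    (a < b + c → ∃ (r : ℝ → ℝ) (P : ℝ → ℝ × ℝ),
      (∀ z, 1 ≤ z → Tendsto (fun N => rN N a b c z) atTop (𝓝 (r z))) ∧
      (∀ z, 1 < z → DifferentiableAt ℝ r z ∧ ∀ p : ℝ × ℝ,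
        (lineF a b c r p.1 p.2 z = 0 ∧ HasDerivAt (lineF a b c r p.1 p.2) 0 z ↔ p = P z)) ∧
      ContinuousOn P (Set.Ioi 1) ∧ Tendsto P (𝓝[>] 1) (𝓝 (r 1, 0)) ∧
      Tendsto P atTop (𝓝 (1, 1 - r 1)) ∧
      P '' Set.Ioi 1 ⊆ Set.Icc 0 1 ×ˢ Set.Icc 0 1 ∧
      frontier (frozenRegion a b c) ∩ Set.Ioo 0 1 ×ˢ Set.Ioo 0 1 =
        P '' Set.Ioi 1 ∩ Set.Ioo 0 1 ×ˢ Set.Ioo 0 1 ∧
      ∀ p ∈ (Set.Ioo 0 1 ×ˢ Set.Ioo 0 1 : Set (ℝ × ℝ)) \ P '' Set.Ioi 1,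
        Tendsto (efp a b c p) atTop (𝓝 1) ∨ Tendsto (efp a b c p) atTop (𝓝 0)) ∧
    (b + c ≤ a →
      frontier (frozenRegion a b c) ∩ Set.Ioo 0 1 ×ˢ Set.Ioo 0 1 =
        {p : ℝ × ℝ | p.1 = p.2} ∩ Set.Ioo 0 1 ×ˢ Set.Ioo 0 1 ∧
      ∀ r : ℝ → ℝ, ¬ (frontier (frozenRegion a b c) ∩ Set.Ioo 0 1 ×ˢ Set.Ioo 0 1 ⊆
        curve a b c r)) :=
  ⟨fun h1 => (lt_or_ge b (a + c)).elim (arcLaw_disordered ha hb hc h1) (arcLaw_point ha hb hc),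
    fun h => ⟨ferro_frontier' ha hb hc h, not_subset_curve ha hb hc h⟩⟩

end Pool.Agent.Results.MP_413ea6_mp.ArcticCurve
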