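import Pool.Agent.Work.MP_413ea6_mp.EndA

/-!
In the ferroelectric regime a line of the family cuts off points that are not frozen.
-/

set_option autoImplicit false

open Filter Topology Pool.Agent.Work.MP_413ea6_mp

namespace Pool.Agent.Results.MP_413ea6_mp.FerroLineCuts

theorem result (a b c : ℝ) (ha : 0 < a) (hb : 0 < b) (hc : 0 < c) (hba : b < a)
    (hΔ : 3 * √2 / 4 < Delta a b c) :
    ∃ z : ℝ, 1 < z ∧ Tendsto (fun N => rN N a b c z) atTop (𝓝 0) ∧
      ∃ U : Set (ℝ × ℝ), IsOpen U ∧ U.Nonempty ∧ U ⊆ Set.Ioo 0 1 ×ˢ Set.Ioo 0 1 ∧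
        ∀ p ∈ U, 0 < lineF a b c (fun _ => 0) p.1 p.2 z ∧
          Tendsto (efp a b c p) atTop (𝓝 0) := by
  obtain ⟨z, h1, h2, h3⟩ := ferro_rN ha hb hc hba hΔ
  refine ⟨z, h1, h3 z ⟨h1.le, le_rfl⟩,
    {p | 0 < p.1 ∧ p.1 < p.2 ∧ p.2 < 1 ∧ lam a b c z * p.2 < p.1}, ?_, ?_, ?_, ?_⟩
  · exact (isOpen_lt continuous_const continuous_fst).inter
      ((isOpen_lt continuous_fst continuous_snd).inter
        ((isOpen_lt continuous_snd continuous_const).inter
          (isOpen_lt (continuous_const.mul continuous_snd) continuous_fst)))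
  · have h4 : max (lam a b c z) 0 < 1 := max_lt h2 one_pos
    have h5 := le_max_left (lam a b c z) 0
    have h6 := le_max_right (lam a b c z) 0
    refine ⟨((max (lam a b c z) 0 + 1) / 4, 1 / 2), ?_, ?_, ?_, ?_⟩ <;> simp only [] <;>
      linarith
  · rintro p ⟨p1, p2, p3, -⟩
    exact ⟨⟨p1, p2.trans p3⟩, p1.trans p2, p3⟩
  · rintro p ⟨p1, p2, p3, p4⟩
    refine ⟨?_, efp_zero ha hb hc p1.le p2 p3.le⟩
    unfold lineF
    linarith

end Pool.Agent.Results.MP_413ea6_mp.FerroLineCuts
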